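import Mathlib
import Pool.Agent.Lib_helper13.PL.Cor
import Pool.Agent.Lib_helper42.RS.Sym

/-!
# Positive regime of the no-wrap case: definitions

`cost A B₀` is the loss caused by a level `A` in the peeling inequality;
`Cst K C` : `C` is a coset of `K`; `th K A x` : number of elements of `A` in the coset `x + K`.
-/

set_option autoImplicit false

namespace Pool.Agent.POS

open Finset Pool.Agent.Lib_helper13.PL

variable {G : Type*} [AddCommGroup G] [DecidableEq G]

/-- the cost of the level `A` -/
def cost (A B0 : Finset G) : ℤ :=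
  2 * (A.card : ℤ) * ((A.card : ℤ) - B0.card) + 8 * ∑ y ∈ B0, dlt A y

/-- `C` is the coset `w + K` -/
def Cst (K : AddSubgroup G) (C : Finset G) : Prop := ∃ w, ∀ x, x ∈ C ↔ x - w ∈ K

open Classical in
/-- the number of elements of `A` in the coset of `x` -/
noncomputable def th (K : AddSubgroup G) (A : Finset G) (x : G) : ℤ :=
  ((A.filter (fun z => z - x ∈ K)).card : ℤ)

/-- `B` is a no-wrap set for the character `chi` of order `m` -/
def NoWrap {m : ℕ} (chi : G →+ ZMod m) (B : Finset G) : Prop :=
  ∀ x ∈ B, 3 * |(chi x).valMinAbs| < (m : ℤ)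

/-- the level `u` of `B` -/
def lev {m : ℕ} (chi : G →+ ZMod m) (B : Finset G) (u : ZMod m) : Finset G :=
  B.filter (fun x => chi x = u)

/-- mass on the positive side minus mass on the negative side -/
def DD {m : ℕ} (chi : G →+ ZMod m) (B : Finset G) : ℤ :=
  ((B.filter (fun x => 0 < (chi x).valMinAbs)).card : ℤ) -
    ((B.filter (fun x => (chi x).valMinAbs < 0)).card : ℤ)

end Pool.Agent.POS
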