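import Mathlib

/-!
# FAR: definitions of the numerical conditions

`LevOK c h K x w` : the information about a level with `x` elements and cost `w`;
`F0OK c K F0` : the information about `F(B_0)`, `c = |B_0|`.
`LevZ`, `F0Z` : the same for integers.
-/

set_option autoImplicit false

namespace Pool.Agent.POS.Far

/-- the information about one level: `x` its size, `w` its cost -/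
def LevOK (c h K x w : ℝ) : Prop :=
  0 ≤ x ∧ 0 ≤ w ∧ 6 * x * (c - x) ≤ w ∧ 2 * x * (x - c) ≤ w ∧
    (c ≤ 2 * x → ∃ β : ℝ, 0 ≤ β ∧ 2 * (x ^ 2 - x * c + c ^ 2) - 2 * β ^ 2 ≤ w ∧
      (3 * β ≤ c ∨ (β ≤ 2 * K - c ∧ β ≤ c) ∨
        (4 * β ≤ 3 * x ∧ β ≤ c ∧ (x < h → β ≤ c - 2 * (h - x)))))

/-- the information about `F(B_0)` -/
def F0OK (c K F0 : ℝ) : Prop :=
  F0 ≤ 0 ∨ ∃ ρ : ℝ, 0 ≤ ρ ∧ F0 ≤ ρ ^ 2 ∧ (3 * ρ ≤ c ∨ (ρ ≤ 4 * K - 3 * c ∧ ρ ≤ c))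

/-- `LevOK` for integers -/
def LevZ (c h K x w : ℤ) : Prop :=
  0 ≤ x ∧ 0 ≤ w ∧ 6 * x * (c - x) ≤ w ∧ 2 * x * (x - c) ≤ w ∧
    (c ≤ 2 * x → ∃ β : ℤ, 0 ≤ β ∧ 2 * (x ^ 2 - x * c + c ^ 2) - 2 * β ^ 2 ≤ w ∧
      (3 * β ≤ c ∨ (β ≤ 2 * K - c ∧ β ≤ c) ∨
        (4 * β ≤ 3 * x ∧ β ≤ c ∧ (x < h → β ≤ c - 2 * (h - x)))))

/-- `F0OK` for integers -/
def F0Z (c K F0 : ℤ) : Prop :=
  F0 ≤ 0 ∨ ∃ ρ : ℤ, 0 ≤ ρ ∧ F0 ≤ ρ ^ 2 ∧ (3 * ρ ≤ c ∨ (ρ ≤ 4 * K - 3 * c ∧ ρ ≤ c))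

end Pool.Agent.POS.Far
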